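import Pool.Agent.H958.RL.Stm2

set_option autoImplicit false

namespace Pool.Agent.H404.RL.Gdiff

open Finset
open scoped Classical
open Pool.Agent.W830.RD (Om gle)
open Pool.Agent.H958.RO (GG res dg)
open Pool.Agent.H958.RL

variable {n : ℕ}

/-- `z` can be reached from `w` in at most `i` steps -/
def Rc (E : Finset (Fin n × Fin n)) : ℕ → Fin n → Fin n → Prop
  | 0, w, z => w = z
  | i + 1, w, z => ∃ y, Rc E i w y ∧ (y = z ∨ (GG E).Adj y z)

theorem Rc_mono1 {E : Finset (Fin n × Fin n)} {i : ℕ} {w z : Fin n} (h : Rc E i w z) :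
    Rc E (i + 1) w z := ⟨z, h, Or.inl rfl⟩

theorem Rc_mono {E : Finset (Fin n × Fin n)} {i j : ℕ} {w z : Fin n} (hij : i ≤ j)
    (h : Rc E i w z) : Rc E j w z := by
  induction hij with
  | refl => exact h
  | step _ ih => exact Rc_mono1 ih

theorem Rc_cons {E : Finset (Fin n × Fin n)} {w w' : Fin n} (h : (GG E).Adj w w') :
    ∀ (i : ℕ) (z : Fin n), Rc E i w' z → Rc E (i + 1) w z := by
  intro i
  induction i with
  | zero =>
    intro z hz
    have hz' : w' = z := hz
    subst hz'
    exact ⟨w, rfl, Or.inr h⟩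
  | succ i ih =>
    rintro z ⟨y, hy, hyz⟩
    exact ⟨y, ih y hy, hyz⟩

theorem Rc_of_walk {E : Finset (Fin n × Fin n)} {w z : Fin n} (p : (GG E).Walk w z) :
    Rc E p.length w z := by
  induction p with
  | nil => exact rfl
  | cons h p ih =>
    rw [SimpleGraph.Walk.length_cons]
    exact Rc_cons h _ _ ih

theorem walk_of_Rc {E : Finset (Fin n × Fin n)} {w : Fin n} :
    ∀ (i : ℕ) (z : Fin n), Rc E i w z → ∃ p : (GG E).Walk w z, p.length ≤ i := by
  intro i
  induction i with
  | zero =>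
    intro z hz
    have hz' : w = z := hz
    subst hz'
    exact ⟨SimpleGraph.Walk.nil, le_rfl⟩
  | succ i ih =>
    rintro z ⟨y, hy, hyz⟩
    obtain ⟨p, hp⟩ := ih y hy
    rcases hyz with rfl | h
    · exact ⟨p, by omega⟩
    · refine ⟨p.concat h, ?_⟩
      rw [SimpleGraph.Walk.length_concat]
      omega

theorem mem_Bl {E : Finset (Fin n × Fin n)} {R : ℕ} {w z : Fin n} :
    z ∈ Bl E R w ↔ Rc E R w z := by
  unfold Bl
  rw [mem_filter]
  constructor
  · rintro ⟨_, p, hp⟩
    exact Rc_mono hp (Rc_of_walk p)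
  · intro h
    exact ⟨mem_univ _, walk_of_Rc R z h⟩

theorem adj_sub {E E' : Finset (Fin n × Fin n)} (h : E ⊆ E') {a b : Fin n}
    (hab : (GG E).Adj a b) : (GG E').Adj a b := by
  obtain ⟨h1, h2⟩ := hab
  exact ⟨h1, h2.imp (fun h3 => h h3) (fun h3 => h h3)⟩

theorem Rc_sub {E E' : Finset (Fin n × Fin n)} (h : E ⊆ E') {w : Fin n} :
    ∀ (i : ℕ) (z : Fin n), Rc E i w z → Rc E' i w z := by
  intro i
  induction i with
  | zero => intro z hz; exact hz
  | succ i ih =>
    rintro z ⟨y, hy, hyz⟩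
    exact ⟨y, ih y hy, hyz.imp id (adj_sub h)⟩

theorem Rc_back {E0 E1 : Finset (Fin n × Fin n)} {u v : Fin n}
    (hE : ∀ x, x ∈ E1 ↔ x = (u, v) ∨ x ∈ E0) {R : ℕ} {w : Fin n} (hu : ¬ Rc E0 R w u)
    (hv : ¬ Rc E0 R w v) : ∀ i ≤ R, ∀ z, Rc E1 i w z → Rc E0 i w z := by
  intro i
  induction i with
  | zero => intro _ z hz; exact hz
  | succ i ih =>
    rintro hi z ⟨y, hy, hyz⟩
    have hy0 := ih (by omega) y hy
    have hyu : y ≠ u := by
      rintro rfl
      exact hu (Rc_mono (by omega) hy0)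
    have hyv : y ≠ v := by
      rintro rfl
      exact hv (Rc_mono (by omega) hy0)
    refine ⟨y, hy0, ?_⟩
    rcases hyz with h | ⟨h1, h2⟩
    · exact Or.inl h
    · right
      refine ⟨h1, ?_⟩
      rw [hE, hE] at h2
      rcases h2 with (h2 | h2) | (h2 | h2)
      · exact absurd (congrArg Prod.fst h2) hyu
      · exact Or.inl h2
      · exact absurd (congrArg Prod.snd h2) hyv
      · exact Or.inr h2

/-- the property counted by `gl` -/
def Pp (E : Finset (Fin n × Fin n)) (K D R : ℕ) (w : Fin n) : Prop :=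
  (∀ v ∈ Bl E R w, dg E univ v ≤ D) ∧ w ∈ NK (res E (Bl E R w)) K

theorem Pp_iff {E0 E1 : Finset (Fin n × Fin n)} {u v : Fin n} (K D R : ℕ)
    (hE : ∀ x, x ∈ E1 ↔ x = (u, v) ∨ x ∈ E0) {w : Fin n} (hu : u ∉ Bl E0 R w)
    (hv : v ∉ Bl E0 R w) : Pp E1 K D R w ↔ Pp E0 K D R w := by
  have hu' : ¬ Rc E0 R w u := fun h => hu (mem_Bl.2 h)
  have hv' : ¬ Rc E0 R w v := fun h => hv (mem_Bl.2 h)
  have hsub : E0 ⊆ E1 := fun x hx => (hE x).2 (Or.inr hx)
  have hBl : Bl E1 R w = Bl E0 R w := by
    ext z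
    rw [mem_Bl, mem_Bl]
    exact ⟨Rc_back hE hu' hv' R le_rfl z, Rc_sub hsub R z⟩
  have hdg : ∀ z ∈ Bl E0 R w, dg E1 univ z = dg E0 univ z := by
    intro z hz
    have hzu : z ≠ u := by rintro rfl; exact hu hz
    have hzv : z ≠ v := by rintro rfl; exact hv hz
    unfold dg
    congr 1
    apply filter_congr
    intro x _
    constructor
    · rintro ⟨h1, h2⟩
      refine ⟨h1, ?_⟩
      rw [hE, hE] at h2
      rcases h2 with (h2 | h2) | (h2 | h2)
      · exact absurd (congrArg Prod.fst h2) hzu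
      · exact Or.inl h2
      · exact absurd (congrArg Prod.snd h2) hzv
      · exact Or.inr h2
    · exact adj_sub hsub
  have hres : res E1 (Bl E0 R w) = res E0 (Bl E0 R w) := by
    ext x
    unfold res
    rw [mem_filter, mem_filter, hE]
    constructor
    · rintro ⟨h1 | h1, h2, h3⟩
      · rw [h1] at h2
        exact absurd h2 hu
      · exact ⟨h1, h2, h3⟩
    · rintro ⟨h1, h2⟩
      exact ⟨Or.inr h1, h2⟩
  unfold Pp
  rw [hBl, hres]
  constructor
  · rintro ⟨h1, h2⟩
    exact ⟨fun z hz => by rw [← hdg z hz]; exact h1 z hz, h2⟩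
  · rintro ⟨h1, h2⟩
    exact ⟨fun z hz => by rw [hdg z hz]; exact h1 z hz, h2⟩

/-- the vertices which can be reached from `u` through vertices of small degree -/
noncomputable def Bs (E : Finset (Fin n × Fin n)) (D : ℕ) (u : Fin n) : ℕ → Finset (Fin n)
  | 0 => {u}
  | i + 1 => (Bs E D u i).biUnion (fun y =>
      insert y (univ.filter (fun x => (GG E).Adj y x ∧ dg E univ y ≤ D)))

theorem card_Bs (E : Finset (Fin n × Fin n)) (D : ℕ) (u : Fin n) (i : ℕ) :
    (Bs E D u i).card ≤ (D + 1) ^ i := by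
  induction i with
  | zero => simp [Bs]
  | succ i ih =>
    have h1 : (Bs E D u (i + 1)).card ≤ (Bs E D u i).card * (D + 1) := by
      show ((Bs E D u i).biUnion (fun y =>
        insert y (univ.filter (fun x => (GG E).Adj y x ∧ dg E univ y ≤ D)))).card ≤ _
      apply card_biUnion_le_card_mul
      intro y _
      refine (card_insert_le _ _).trans ?_
      have h2 : (univ.filter (fun x => (GG E).Adj y x ∧ dg E univ y ≤ D)).card ≤ D := by
        by_cases hd : dg E univ y ≤ D
        · refine le_trans (card_le_card ?_) hd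
          intro x hx
          rw [mem_filter] at hx ⊢
          exact ⟨hx.1, hx.2.1⟩
        · rw [filter_false_of_mem]
          · simp
          · intro x _ hx
            exact hd hx.2
      omega
    calc (Bs E D u (i + 1)).card ≤ (Bs E D u i).card * (D + 1) := h1
      _ ≤ (D + 1) ^ i * (D + 1) := Nat.mul_le_mul_right _ ih
      _ = (D + 1) ^ (i + 1) := (pow_succ _ _).symm

theorem mem_Bs {E : Finset (Fin n × Fin n)} {D R : ℕ} {u w : Fin n}
    (hd : ∀ z ∈ Bl E R w, dg E univ z ≤ D) :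
    ∀ (i j : ℕ) (x : Fin n), i + j = R → Rc E i w x → x ∈ Bs E D u j → w ∈ Bs E D u R := by
  intro i
  induction i with
  | zero =>
    intro j x hij hx hxj
    have hx' : w = x := hx
    have hj : j = R := by omega
    rw [hx', ← hj]
    exact hxj
  | succ i ih =>
    rintro j x hij hx hxj
    have hxd : dg E univ x ≤ D := hd x (mem_Bl.2 (Rc_mono (by omega) hx))
    obtain ⟨y, hy, hyx⟩ := hx
    refine ih (j + 1) y (by omega) hy ?_
    show y ∈ (Bs E D u j).biUnion (fun y =>
        insert y (univ.filter (fun x => (GG E).Adj y x ∧ dg E univ y ≤ D)))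
    rw [mem_biUnion]
    refine ⟨x, hxj, ?_⟩
    rw [mem_insert, mem_filter]
    rcases hyx with h | h
    · exact Or.inl h
    · exact Or.inr ⟨mem_univ _, h.symm, hxd⟩

theorem count (E : Finset (Fin n × Fin n)) (K D R : ℕ) (u : Fin n) :
    (univ.filter (fun w => Pp E K D R w ∧ u ∈ Bl E R w)).card ≤ (D + 1) ^ R := by
  refine le_trans (card_le_card ?_) (card_Bs E D u R)
  intro w hw
  rw [mem_filter] at hw
  refine mem_Bs hw.2.1.1 R 0 u (by omega) (mem_Bl.1 hw.2.2) ?_
  exact mem_singleton_self u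

theorem gl_eq (E : Finset (Fin n × Fin n)) (K D R : ℕ) :
    gl E K D R = (univ.filter (fun w => Pp E K D R w)).card := by
  unfold gl
  congr 1
  ext w
  rw [mem_filter, mem_filter]
  exact Iff.rfl

theorem one_side {E E' : Finset (Fin n × Fin n)} (K D R : ℕ) (u v : Fin n)
    (h : ∀ w, Pp E K D R w → ¬ Pp E' K D R w → u ∈ Bl E R w ∨ v ∈ Bl E R w) :
    gl E K D R ≤ gl E' K D R + 2 * (D + 1) ^ R := by
  rw [gl_eq, gl_eq]
  have hsub : univ.filter (fun w => Pp E K D R w) ⊆
      univ.filter (fun w => Pp E' K D R w) ∪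
      (univ.filter (fun w => Pp E K D R w ∧ u ∈ Bl E R w) ∪
        univ.filter (fun w => Pp E K D R w ∧ v ∈ Bl E R w)) := by
    intro w hw
    rw [mem_filter] at hw
    rw [mem_union, mem_union, mem_filter, mem_filter, mem_filter]
    by_cases h' : Pp E' K D R w
    · exact Or.inl ⟨mem_univ _, h'⟩
    · rcases h w hw.2 h' with h1 | h1
      · exact Or.inr (Or.inl ⟨mem_univ _, hw.2, h1⟩)
      · exact Or.inr (Or.inr ⟨mem_univ _, hw.2, h1⟩)
  have h1 := card_le_card hsub
  have h2 := card_union_le (univ.filter (fun w => Pp E' K D R w))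
    (univ.filter (fun w => Pp E K D R w ∧ u ∈ Bl E R w) ∪
        univ.filter (fun w => Pp E K D R w ∧ v ∈ Bl E R w))
  have h3 := card_union_le (univ.filter (fun w => Pp E K D R w ∧ u ∈ Bl E R w))
    (univ.filter (fun w => Pp E K D R w ∧ v ∈ Bl E R w))
  have h4 := count E K D R u
  have h5 := count E K D R v
  omega

/-- loops do not matter -/
theorem NK_congr {E E' : Finset (Fin n × Fin n)} (K : ℕ)
    (h : ∀ x y, gle E x y ↔ gle E' x y) : NK E K = NK E' K := by
  have hg : gle E = gle E' := by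
    funext x y
    exact propext (h x y)
  unfold NK BK
  rw [hg]

theorem gle_loop {E0 E1 : Finset (Fin n × Fin n)} (u : Fin n)
    (hE : ∀ x, x ∈ E1 ↔ x = (u, u) ∨ x ∈ E0) (S : Finset (Fin n)) (x y : Fin n) :
    gle (res E1 S) x y ↔ gle (res E0 S) x y := by
  unfold gle
  constructor
  · intro h
    induction h with
    | refl => exact Relation.ReflTransGen.refl
    | tail _ hab ih =>
      unfold res at hab
      rw [mem_filter, hE] at hab
      rcases hab with ⟨h1 | h1, h2⟩
      · have h3 := congrArg Prod.fst h1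
        have h4 := congrArg Prod.snd h1
        simp only at h3 h4
        rw [h4, ← h3]
        exact ih
      · refine ih.tail ?_
        unfold res
        rw [mem_filter]
        exact ⟨h1, h2⟩
  · intro h
    induction h with
    | refl => exact Relation.ReflTransGen.refl
    | tail _ hab ih =>
      refine ih.tail ?_
      unfold res at hab ⊢
      rw [mem_filter] at hab ⊢
      exact ⟨(hE _).2 (Or.inr hab.1), hab.2⟩

theorem gl_loop {E0 E1 : Finset (Fin n × Fin n)} (u : Fin n) (K D R : ℕ)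
    (hE : ∀ x, x ∈ E1 ↔ x = (u, u) ∨ x ∈ E0) : gl E1 K D R = gl E0 K D R := by
  have hG : GG E1 = GG E0 := by
    ext a b
    constructor
    · rintro ⟨h1, h2⟩
      refine ⟨h1, ?_⟩
      rw [hE, hE] at h2
      rcases h2 with (h2 | h2) | (h2 | h2)
      · exact absurd ((congrArg Prod.fst h2).trans (congrArg Prod.snd h2).symm) h1
      · exact Or.inl h2
      · exact absurd ((congrArg Prod.snd h2).trans (congrArg Prod.fst h2).symm) h1
      · exact Or.inr h2
    · rintro ⟨h1, h2⟩
      exact ⟨h1, h2.imp (fun h => (hE _).2 (Or.inr h)) (fun h => (hE _).2 (Or.inr h))⟩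
  have hBl : ∀ w, Bl E1 R w = Bl E0 R w := by
    intro w
    unfold Bl
    rw [hG]
  have hdg : ∀ z, dg E1 univ z = dg E0 univ z := by
    intro z
    unfold dg
    rw [hG]
  unfold gl
  congr 1
  apply filter_congr
  intro w _
  rw [hBl, NK_congr K (gle_loop u hE (Bl E0 R w))]
  simp only [hdg]

theorem main : S_GDIFF := by
  intro n K D R E e
  obtain ⟨u, v⟩ := e
  have hE : ∀ x, x ∈ insert (u, v) E ↔ x = (u, v) ∨ x ∈ E.erase (u, v) := by
    intro x
    rw [mem_insert, mem_erase]
    by_cases h : x = (u, v)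
    · simp [h]
    · simp [h]
  have hpos : (0 : ℝ) ≤ ((D : ℝ) + 1) ^ R := by positivity
  by_cases huv : u = v
  · subst huv
    rw [gl_loop u K D R hE, sub_self, abs_zero]
    positivity
  · have hsub : E.erase (u, v) ⊆ insert (u, v) E := fun x hx => (hE x).2 (Or.inr hx)
    have h0 : ∀ w, (Pp (insert (u, v) E) K D R w ↔ Pp (E.erase (u, v)) K D R w) ∨
        (u ∈ Bl (E.erase (u, v)) R w ∨ v ∈ Bl (E.erase (u, v)) R w) := by
      intro w
      by_cases h1 : u ∈ Bl (E.erase (u, v)) R w
      · exact Or.inr (Or.inl h1)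
      · by_cases h2 : v ∈ Bl (E.erase (u, v)) R w
        · exact Or.inr (Or.inr h2)
        · exact Or.inl (Pp_iff K D R hE h1 h2)
    have hBsub : ∀ w z, z ∈ Bl (E.erase (u, v)) R w → z ∈ Bl (insert (u, v) E) R w :=
      fun w z hz => mem_Bl.2 (Rc_sub hsub R z (mem_Bl.1 hz))
    have a1 : gl (insert (u, v) E) K D R ≤ gl (E.erase (u, v)) K D R + 2 * (D + 1) ^ R := by
      apply one_side K D R u v
      intro w hw hw'
      rcases h0 w with h | h | h
      · exact absurd (h.1 hw) hw'
      · exact Or.inl (hBsub w u h)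
      · exact Or.inr (hBsub w v h)
    have a2 : gl (E.erase (u, v)) K D R ≤ gl (insert (u, v) E) K D R + 2 * (D + 1) ^ R := by
      apply one_side K D R u v
      intro w hw hw'
      rcases h0 w with h | h
      · exact absurd (h.2 hw) hw'
      · exact h
    have b1 : ((gl (insert (u, v) E) K D R : ℕ) : ℝ) ≤
        ((gl (E.erase (u, v)) K D R : ℕ) : ℝ) + 2 * ((D : ℝ) + 1) ^ R := by
      exact_mod_cast a1
    have b2 : ((gl (E.erase (u, v)) K D R : ℕ) : ℝ) ≤
        ((gl (insert (u, v) E) K D R : ℕ) : ℝ) + 2 * ((D : ℝ) + 1) ^ R := by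
      exact_mod_cast a2
    rw [abs_le]
    constructor <;> linarith

end Pool.Agent.H404.RL.Gdiff
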